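import Mathlib

/-!
# Matricial cycles versus the split-conjugation space for the torus group
-/

set_option autoImplicit false

open Matrix

namespace Pool.Agent.Results.MP_abda90_al.TorusCycle

/-- Words in the letters `x_i` (encoded `(i, true)`) and `x_i⁻¹` (encoded `(i, false)`). -/
abbrev Word (m : ℕ) : Type := List (Fin m × Bool)

/-- The group presented by `m` generators and the relators `rels 0, …, rels (k-1)`. -/
abbrev Gam {m k : ℕ} (rels : Fin k → Word m) : Type :=
  PresentedGroup (Set.range fun j => FreeGroup.mk (rels j))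

/-- The real group algebra. -/
abbrev RG {m k : ℕ} (rels : Fin k → Word m) : Type := MonoidAlgebra ℝ (Gam rels)

/-- The `i`-th generator as an element of the presented group. -/
def gen {m k : ℕ} (rels : Fin k → Word m) (i : Fin m) : Gam rels := PresentedGroup.of i

/-- A group element as an element of the real group algebra. -/
noncomputable def el {m k : ℕ} {rels : Fin k → Word m} (γ : Gam rels) : RG rels :=
  MonoidAlgebra.of ℝ (Gam rels) γ

/-- The involution `(∑ a_γ γ)* = ∑ a_γ γ⁻¹` of the real group algebra. -/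
noncomputable def inv {m k : ℕ} {rels : Fin k → Word m} (a : RG rels) : RG rels :=
  MonoidAlgebra.mapDomain (fun γ => γ⁻¹) a

/-- `a*` for matrices: transpose with the involution applied to every entry. -/
noncomputable def mstar {m k : ℕ} {rels : Fin k → Word m} {p q : Type}
    (a : Matrix p q (RG rels)) : Matrix q p (RG rels) := (a.map inv)ᵀ

/-- The Fox derivative `∂w/∂x_i` of a word `w`, evaluated in the real group algebra of the
presented group: `∂1 = 0`, `∂(x_j w) = δ_{ij} + x_j ∂w`, `∂(x_j⁻¹ w) = -δ_{ij} x_j⁻¹ + x_j⁻¹ ∂w`. -/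
noncomputable def fox {m k : ℕ} (rels : Fin k → Word m) (i : Fin m) : Word m → RG rels
  | [] => 0
  | (j, true) :: w => (if j = i then 1 else 0) + el (gen rels j) * fox rels i w
  | (j, false) :: w =>
      -(if j = i then el (gen rels j)⁻¹ else 0) + el (gen rels j)⁻¹ * fox rels i w

/-- `d_0`: the column with entries `1 - s` over the generators `s`. -/
noncomputable def d0 {m k : ℕ} (rels : Fin k → Word m) : Matrix (Fin m) (Fin 1) (RG rels) :=
  Matrix.of fun i _ => 1 - el (gen rels i)

/-- `d_1`: the matrix of Fox derivatives of the relators. -/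
noncomputable def d1 {m k : ℕ} (rels : Fin k → Word m) : Matrix (Fin k) (Fin m) (RG rels) :=
  Matrix.of fun j i => fox rels i (rels j)

/-- The kernel of `D_0 : a ↦ d_0* a d_0`. -/
def kerD0 {m k : ℕ} (rels : Fin k → Word m) : Set (Matrix (Fin m) (Fin m) (RG rels)) :=
  {a | mstar (d0 rels) * a * d0 rels = 0}

/-- The split-conjugation space `SC_1`. -/
def SC1 {m k : ℕ} (rels : Fin k → Word m) : Set (Matrix (Fin m) (Fin m) (RG rels)) :=
  {a | ∃ (x : Matrix (Fin k) (Fin m) (RG rels)) (y : Matrix (Fin m) (Fin k) (RG rels)),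
    a = mstar (d1 rels) * x + y * d1 rels}

/-- The presentation `⟨s, t | s t s⁻¹ t⁻¹⟩` of `ℤ²` (`s` is the generator `0` and `t` the generator
`1`). -/
def torusRels : Fin 1 → Word 2 := fun _ => [(0, true), (1, true), (0, false), (1, false)]

section General

variable {m k : ℕ} (rels : Fin k → Word m)

/-- Augmentation. -/
noncomputable def aug : RG rels →+* ℝ :=
  (MonoidAlgebra.lift ℝ ℝ (Gam rels) (1 : Gam rels →* ℝ)).toRingHom

lemma aug_el (γ : Gam rels) : aug rels (el γ) = 1 := by
  simp [aug, el]

lemma el_mul (γ γ' : Gam rels) : el (γ * γ') = el γ * el γ' := by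
  simp [el]

lemma el_one : el (1 : Gam rels) = 1 := map_one _

lemma inv_el (γ : Gam rels) : inv (el γ) = el γ⁻¹ := by
  simp [el, inv]

/-- The involution as an additive map. -/
noncomputable def invHom : RG rels →+ RG rels where
  toFun := inv
  map_zero' := MonoidAlgebra.mapDomain_zero _
  map_add' a b := MonoidAlgebra.mapDomain_add _ a b

lemma inv_sub (a b : RG rels) : inv (a - b) = inv a - inv b := map_sub (invHom rels) a b

lemma aug_inv (a : RG rels) : aug rels (inv a) = aug rels a := by
  have h : ((aug rels : RG rels →+* ℝ) : RG rels →+ ℝ).comp (invHom rels) =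
      ((aug rels : RG rels →+* ℝ) : RG rels →+ ℝ) := by
    apply MonoidAlgebra.addMonoidHom_ext
    intro γ r
    show aug rels (inv (MonoidAlgebra.single γ r)) = aug rels (MonoidAlgebra.single γ r)
    rw [inv, MonoidAlgebra.mapDomain_single]
    simp [aug]
  exact DFunLike.congr_fun h a

end General

/-- `s t = t s` in the presented group. -/
lemma torus_comm : gen torusRels 0 * gen torusRels 1 = gen torusRels 1 * gen torusRels 0 := by
  have h : (PresentedGroup.mk (Set.range fun j => FreeGroup.mk (torusRels j))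
      (FreeGroup.mk (torusRels 0)) : Gam torusRels) = 1 :=
    PresentedGroup.one_of_mem ⟨0, rfl⟩
  have h2 : (PresentedGroup.mk (Set.range fun j => FreeGroup.mk (torusRels j))
      (FreeGroup.mk (torusRels 0)) : Gam torusRels) =
      gen torusRels 0 * gen torusRels 1 * (gen torusRels 0)⁻¹ * (gen torusRels 1)⁻¹ := by
    rfl
  rw [h2] at h
  rw [mul_inv_eq_one, mul_inv_eq_iff_eq_mul] at h
  exact h

/-- The matrix `[[0, s], [-t, 0]]`. -/
noncomputable def cyc : Matrix (Fin 2) (Fin 2) (RG torusRels) :=
  !![0, el (gen torusRels 0); -el (gen torusRels 1), 0]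

lemma cyc_mem : cyc ∈ kerD0 torusRels := by
  show mstar (d0 torusRels) * cyc * d0 torusRels = 0
  set s := gen torusRels 0 with hs
  set t := gen torusRels 1 with ht
  have hst : el s * el t = el t * el s := by
    rw [← el_mul, ← el_mul, hs, ht, torus_comm]
  have h1 : el s⁻¹ * el s = (1 : RG torusRels) := by rw [← el_mul, inv_mul_cancel, el_one]
  have h2 : el t⁻¹ * el t = (1 : RG torusRels) := by rw [← el_mul, inv_mul_cancel, el_one]
  refine Matrix.ext fun i j => ?_
  fin_cases i
  fin_cases j
  simp only [Matrix.mul_apply, Fin.sum_univ_two, mstar, cyc, d0, transpose_apply, map_apply,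
    of_apply, cons_val', cons_val_zero, cons_val_one, inv_sub, inv_el,
    ← el_one torusRels, inv_one, Fin.zero_eta]
  rw [← hs, ← ht, el_one]
  simp only [mul_zero, zero_add, add_zero, sub_mul, mul_sub, one_mul, mul_one, mul_neg, h1, h2,
    neg_mul]
  rw [hst]
  show _ = (0 : RG torusRels)
  abel

lemma aug_d1 (j : Fin 1) (i : Fin 2) : aug torusRels (d1 torusRels j i) = 0 := by
  fin_cases i
  · simp [d1, torusRels, fox, map_add, map_mul, map_neg, aug_el]
  · simp [d1, torusRels, fox, map_add, map_mul, map_neg, aug_el]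

lemma aug_of_mem {a : Matrix (Fin 2) (Fin 2) (RG torusRels)} (ha : a ∈ SC1 torusRels)
    (i j : Fin 2) : aug torusRels (a i j) = 0 := by
  obtain ⟨x, y, rfl⟩ := ha
  simp [Matrix.add_apply, Matrix.mul_apply, mstar, map_add, map_mul, aug_inv, aug_d1]

/-- The map from the presented group to `ℤ²`. -/
def toZ : Gam torusRels →* Multiplicative (ℤ × ℤ) :=
  PresentedGroup.toGroup (f := ![Multiplicative.ofAdd (1, 0), Multiplicative.ofAdd (0, 1)])
    (by
      rintro _ ⟨j, rfl⟩
      fin_cases j
      show FreeGroup.lift _ (FreeGroup.mk _) = 1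
      rw [FreeGroup.lift_mk]
      rfl)

/-- The map from `ℤ²` to the presented group. -/
def ofZ : Multiplicative (ℤ × ℤ) →* Gam torusRels where
  toFun x := gen torusRels 0 ^ (Multiplicative.toAdd x).1 * gen torusRels 1 ^ (Multiplicative.toAdd x).2
  map_one' := by simp
  map_mul' x y := by
    have hc : Commute (gen torusRels 0) (gen torusRels 1) := torus_comm
    have h1 : Commute (gen torusRels 0 ^ (Multiplicative.toAdd y).1)
      (gen torusRels 1 ^ (Multiplicative.toAdd x).2) := (hc.zpow_zpow _ _)
    simp only [toAdd_mul, Prod.fst_add, Prod.snd_add, _root_.zpow_add]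
    rw [mul_assoc, mul_assoc, ← mul_assoc (gen torusRels 0 ^ (Multiplicative.toAdd y).1), h1.eq,
      mul_assoc]

lemma equivZ : Nonempty (Gam torusRels ≃* Multiplicative (ℤ × ℤ)) := by
  refine ⟨MonoidHom.toMulEquiv toZ ofZ ?_ ?_⟩
  · apply PresentedGroup.ext
    intro i
    show ofZ (toZ (PresentedGroup.of i)) = PresentedGroup.of i
    rw [toZ, PresentedGroup.toGroup.of]
    fin_cases i
    · show gen torusRels 0 ^ (1 : ℤ) * gen torusRels 1 ^ (0 : ℤ) = gen torusRels 0
      simp
    · show gen torusRels 0 ^ (0 : ℤ) * gen torusRels 1 ^ (1 : ℤ) = gen torusRels 1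
      simp
  · refine MonoidHom.ext fun x => ?_
    show toZ (gen torusRels 0 ^ (Multiplicative.toAdd x).1 *
      gen torusRels 1 ^ (Multiplicative.toAdd x).2) = x
    have h0 : toZ (gen torusRels 0) = Multiplicative.ofAdd (1, 0) := by
      rw [gen, toZ, PresentedGroup.toGroup.of]; rfl
    have h1 : toZ (gen torusRels 1) = Multiplicative.ofAdd (0, 1) := by
      rw [gen, toZ, PresentedGroup.toGroup.of]; rfl
    rw [map_mul, map_zpow, map_zpow, h0, h1]
    apply Multiplicative.toAdd.injective
    rw [toAdd_mul, toAdd_zpow, toAdd_zpow]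
    apply Prod.ext
    · simp
    · simp

/-- For the presentation complex of `⟨s, t | s t s⁻¹ t⁻¹⟩` (the torus) one has
`ker D_0 ≠ SC_1`: the matrix `[[0, s], [-t, 0]]` is in the kernel of `D_0` but not in `SC_1`. -/
theorem result : Nonempty (Gam torusRels ≃* Multiplicative (ℤ × ℤ)) ∧
    cyc ∈ kerD0 torusRels ∧ cyc ∉ SC1 torusRels ∧ kerD0 torusRels ≠ SC1 torusRels := by
  have h : cyc ∉ SC1 torusRels := by
    intro h
    have h1 := aug_of_mem h 0 1
    simp [cyc, aug_el] at h1
  exact ⟨equivZ, cyc_mem, h, fun he => h (he ▸ cyc_mem)⟩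

end Pool.Agent.Results.MP_abda90_al.TorusCycle
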